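import Pool.Agent.P.MP_1639c2_lc.Round

/-!
Special cases of the weighted rounding theorem in terms of the maximum degree.
-/

namespace Pool.Agent.P.MP_1639c2_lc

open Finset

variable {V : Type} [Fintype V] [DecidableEq V] {E : Type} [Fintype E]

theorem sum_const_le (edge : E → Finset V) {Δ : ℕ} (hΔ : ∀ v, degree edge v ≤ Δ) {a : ℝ}
    (ha : 0 ≤ a) (v : V) : ∑ _e ∈ univ.filter (fun e => v ∈ edge e), a ≤ Δ * a := by
  rw [sum_const, nsmul_eq_mul]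
  exact mul_le_mul_of_nonneg_right (by exact_mod_cast hΔ v) ha

/-- Violation `2Δ - 2` on both sides. -/
theorem two_delta_sub_two (M : Matroid V) (edge : E → Finset V) (l u : E → ℤ) (c x : V → ℝ)
    (hx : LPFeasible M edge l u x) (Δ : ℕ) (h1 : 1 ≤ Δ) (hΔ : ∀ v, degree edge v ≤ Δ) :
    ∃ B, NearFeasible M edge l u (2 * Δ - 2) (2 * Δ - 2) B ∧ ∑ v ∈ B, c v ≤ ∑ v, c v * x v := by
  classical
  have hD : (0 : ℝ) < Δ := by exact_mod_cast h1
  have ha : (0 : ℝ) ≤ 1 / (2 * Δ) := by positivity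
  have hh : (Δ : ℝ) * (1 / (2 * Δ)) = 1 / 2 := by field_simp
  obtain ⟨B, hB, hc, hb⟩ := rounding M edge l u c x hx (fun _ => 1 / (2 * Δ))
    (fun _ => 1 / (2 * Δ)) (1 / 2) (fun _ => ha) (fun _ => ha)
    (fun v => (sum_const_le edge hΔ ha v).trans hh.le)
    (fun v => (sum_const_le edge hΔ ha v).trans (by rw [hh]; norm_num))
  have hp : (1 : ℝ) ≤ 1 / (2 * Δ) * (((2 * Δ - 2 : ℕ) : ℝ) + 1)
      + min (1 / (2 * (Δ : ℝ))) (1 / (2 * Δ)) := by
    rw [min_self, Nat.cast_sub (by omega)]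
    push_cast
    apply le_of_eq
    field_simp
    ring
  exact ⟨B, ⟨hB, fun e => ⟨(hb e _).1 hp, (hb e _).2 hp⟩⟩, hc⟩

/-- The trade-off between the two sides. -/
theorem trade_off (M : Matroid V) (edge : E → Finset V) (l u : E → ℤ) (c x : V → ℝ)
    (hx : LPFeasible M edge l u x) (Δ p q : ℕ) (h1 : Δ ≤ p) (h2 : p + 2 ≤ 2 * Δ)
    (h3 : Δ * p ≤ (p + 1 - Δ) * (q + 2)) (hΔ : ∀ v, degree edge v ≤ Δ) :
    ∃ B, NearFeasible M edge l u p q B ∧ ∑ v ∈ B, c v ≤ ∑ v, c v * x v := by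
  classical
  have hD : (2 : ℝ) ≤ Δ := by exact_mod_cast (by omega : 2 ≤ Δ)
  have hp1 : (Δ : ℝ) ≤ p := by exact_mod_cast h1
  have hp2 : (p : ℝ) + 2 ≤ 2 * Δ := by exact_mod_cast h2
  have hp3 : (Δ : ℝ) * p ≤ (p + 1 - Δ) * (q + 2) := by
    have : ((Δ * p : ℕ) : ℝ) ≤ (((p + 1 - Δ) * (q + 2) : ℕ) : ℝ) := by exact_mod_cast h3
    rw [Nat.cast_mul, Nat.cast_mul, Nat.cast_sub (by omega)] at this
    push_cast at this
    exact this
  have hpos : (0 : ℝ) < Δ * p := by nlinarith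
  have hp0 : (0 : ℝ) < p := by linarith
  have hD0 : (0 : ℝ) < Δ := by linarith
  have ha : (0 : ℝ) ≤ (Δ - 1) / (Δ * p) := div_nonneg (by linarith) hpos.le
  have hb : (0 : ℝ) ≤ (p + 1 - Δ) / (Δ * p) := div_nonneg (by linarith) hpos.le
  obtain ⟨B, hB, hc, hbd⟩ := rounding M edge l u c x hx (fun _ => (Δ - 1) / (Δ * p))
    (fun _ => (p + 1 - Δ) / (Δ * p)) ((Δ - 1) / p) (fun _ => ha) (fun _ => hb)
    (fun v => (sum_const_le edge hΔ ha v).trans (le_of_eq (by field_simp)))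
    (fun v => (sum_const_le edge hΔ hb v).trans (le_of_eq (by field_simp; ring)))
  have hmin : min (((Δ : ℝ) - 1) / (Δ * p)) ((p + 1 - Δ) / (Δ * p)) = (p + 1 - Δ) / (Δ * p) :=
    min_eq_right (div_le_div_of_nonneg_right (by linarith) hpos.le)
  refine ⟨B, ⟨hB, fun e => ⟨(hbd e p).1 ?_, (hbd e q).2 ?_⟩⟩, hc⟩
  · rw [hmin]
    apply le_of_eq
    field_simp
    ring
  · rw [hmin, ← mul_add_one, div_mul_eq_mul_div, le_div_iff₀ hpos]
    linarith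

end Pool.Agent.P.MP_1639c2_lc
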