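import Mathlib

/-!
Definitions for MP_1639c2_lc: the linear programming relaxation of the bounded degree matroid
basis problem.
-/

namespace Pool.Agent.P.MP_1639c2_lc

open Finset

variable {V : Type} {E : Type}

/-- The rank of a finite set in a matroid, as a natural number. -/
noncomputable def rk (M : Matroid V) (S : Finset V) : ℕ := (M.eRk (S : Set V)).toNat

/-- The base polytope of a matroid on a finite set: `x ≥ 0`, `x(S) ≤ r(S)` for all `S`, and
`x(V) = r(V)`. -/
def InBasePolytope [Fintype V] (M : Matroid V) (x : V → ℝ) : Prop :=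
  (∀ v, 0 ≤ x v) ∧ (∀ S : Finset V, ∑ v ∈ S, x v ≤ (rk M S : ℝ)) ∧
    ∑ v, x v = (rk M univ : ℝ)

/-- The number of hyperedges that contain `v`. -/
def degree [Fintype E] [DecidableEq V] (edge : E → Finset V) (v : V) : ℕ :=
  (univ.filter fun e => v ∈ edge e).card

/-- A feasible point of the linear programming relaxation: a point of the base polytope with
`l(e) ≤ x(e) ≤ u(e)` for every hyperedge `e`. -/
def LPFeasible [Fintype V] (M : Matroid V) (edge : E → Finset V) (l u : E → ℤ) (x : V → ℝ) :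
    Prop :=
  InBasePolytope M x ∧ ∀ e, (l e : ℝ) ≤ ∑ v ∈ edge e, x v ∧ ∑ v ∈ edge e, x v ≤ (u e : ℝ)

/-- `B` is a basis with `l(e) - p ≤ |B ∩ e| ≤ u(e) + q` for every hyperedge `e`. -/
def NearFeasible [DecidableEq V] (M : Matroid V) (edge : E → Finset V) (l u : E → ℤ) (p q : ℕ)
    (B : Finset V) : Prop :=
  M.IsBase (B : Set V) ∧
    ∀ e, l e - p ≤ ((B ∩ edge e).card : ℤ) ∧ ((B ∩ edge e).card : ℤ) ≤ u e + q

end Pool.Agent.P.MP_1639c2_lc
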