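import Pool.Agent.P.MP_1639c2_lc.Tight

/-!
The counting argument: if every kept hyperedge is heavy, there is a free direction.
-/

namespace Pool.Agent.P.MP_1639c2_lc

open Finset

variable {V : Type} [Fintype V] [DecidableEq V]

theorem exists_kernel {ι : Type} [DecidableEq ι] (F : Finset V) (I : Finset ι)
    (s : ι → Finset V) (h : I.card < F.card) :
    ∃ d : V → ℝ, d ≠ 0 ∧ (∀ v, v ∉ F → d v = 0) ∧ ∀ i ∈ I, ∑ v ∈ s i, d v = 0 := by
  classical
  let col : F → (I → ℝ) := fun v i => if (v : V) ∈ s i then 1 else 0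
  have hdep : ¬ LinearIndependent ℝ col := by
    intro hli
    have := hli.fintype_card_le_finrank
    simp at this
    omega
  obtain ⟨g, hg, v0, hv0⟩ := Fintype.not_linearIndependent_iff.1 hdep
  refine ⟨fun v => if hv : v ∈ F then g ⟨v, hv⟩ else 0, ?_, ?_, ?_⟩
  · intro h0
    have := congrFun h0 v0
    simp at this
    exact hv0 this
  · intro v hv
    simp [hv]
  · intro i hi
    have h1 := congrFun hg ⟨i, hi⟩
    simp only [Finset.sum_apply, Pi.smul_apply, smul_eq_mul, col, Pi.zero_apply] at h1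
    refine Eq.trans ?_ h1
    have h2 : ∑ v ∈ s i, (if hv : v ∈ F then g ⟨v, hv⟩ else 0)
        = ∑ v ∈ F, (if v ∈ s i then (if hv : v ∈ F then g ⟨v, hv⟩ else 0) else 0) := by
      rw [← sum_filter]
      symm
      apply sum_subset_zero_on_sdiff
      · intro v hv; exact (mem_filter.1 hv).2
      · intro v hv
        have : v ∉ F := by
          intro hF
          exact (Finset.mem_sdiff.1 hv).2 (mem_filter.2 ⟨hF, (Finset.mem_sdiff.1 hv).1⟩)
        simp [this]
      · intro _ _; rfl
    refine h2.trans ?_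
    rw [← sum_coe_sort F]
    apply sum_congr rfl
    intro v _
    by_cases hv : (v : V) ∈ s i <;> simp [hv]

variable {r : Finset V → ℕ} {x : V → ℝ}

open Classical in
/-- The fractional coordinates. -/
noncomputable def frac (x : V → ℝ) : Finset V := univ.filter fun v => 0 < x v ∧ x v < 1

omit [DecidableEq V] in
theorem mem_frac {v : V} : v ∈ frac x ↔ 0 < x v ∧ x v < 1 := by simp [frac]

theorem InP.of_notMem_frac (hr : RankLike r) (hx : InP r x) {v : V} (hv : v ∉ frac x) :
    x v = 0 ∨ x v = 1 := by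
  rw [mem_frac] at hv
  have h0 := hx.1 v
  have h1 := hx.le_one hr v
  by_contra hc
  push Not at hc
  exact hv ⟨lt_of_le_of_ne h0 (Ne.symm hc.1), lt_of_le_of_ne h1 hc.2⟩

/-- On a class, both the fractional mass and the complementary mass are at least one. -/
theorem class_mass (hr : RankLike r) (hx : InP r x) {u : V} (hu : u ∈ frac x) :
    1 ≤ ∑ v ∈ (frac x).filter (fun v => sig r x v = sig r x u), x v ∧
    1 ≤ ∑ v ∈ (frac x).filter (fun v => sig r x v = sig r x u), (1 - x v) := by
  classical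
  obtain ⟨n, hn⟩ := class_sum_int hr hx u
  set C := univ.filter (fun v => sig r x v = sig r x u) with hC
  set G := (frac x).filter (fun v => sig r x v = sig r x u) with hG
  have hGC : G = C.filter (fun v => v ∈ frac x) := by
    ext v; simp [hG, hC, and_comm]
  have hsplit := sum_filter_add_sum_filter_not C (fun v => v ∈ frac x) x
  have hint : ∑ v ∈ C.filter (fun v => ¬ v ∈ frac x), x v
      = ((C.filter (fun v => ¬ v ∈ frac x)).filter (fun v => x v = 1)).card := by
    rw [card_filter]
    push_cast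
    apply sum_congr rfl
    intro v hv
    rcases hx.of_notMem_frac hr (mem_filter.1 hv).2 with h | h <;> simp [h]
  have huG : u ∈ G := mem_filter.2 ⟨hu, rfl⟩
  have hpos1 : 0 < ∑ v ∈ G, x v :=
    sum_pos (fun v hv => (mem_frac.1 (mem_filter.1 hv).1).1) ⟨u, huG⟩
  have hpos2 : 0 < ∑ v ∈ G, (1 - x v) :=
    sum_pos (fun v hv => sub_pos.2 (mem_frac.1 (mem_filter.1 hv).1).2) ⟨u, huG⟩
  obtain ⟨m, hm⟩ : ∃ m : ℤ, ∑ v ∈ G, x v = m := by
    refine ⟨n - ((C.filter (fun v => ¬ v ∈ frac x)).filter (fun v => x v = 1)).card, ?_⟩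
    push_cast
    rw [← hint, ← hn, ← hsplit, hGC]
    ring
  have h2 : ∑ v ∈ G, (1 - x v) = ((G.card : ℤ) - m : ℤ) := by
    rw [sum_sub_distrib, hm]
    simp
  constructor
  · rw [hm] at hpos1 ⊢
    have : (0 : ℤ) < m := by exact_mod_cast hpos1
    exact_mod_cast this
  · rw [h2] at hpos2 ⊢
    have : (0 : ℤ) < (G.card : ℤ) - m := by exact_mod_cast hpos2
    exact_mod_cast this

theorem exists_direction {E : Type} [DecidableEq E] (hr : RankLike r) (hx : InP r x)
    (edge : E → Finset V) (K : Finset E) (α β : E → ℝ) (A : ℝ)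
    (hα : ∀ e, 0 ≤ α e) (hβ : ∀ e, 0 ≤ β e)
    (hA : ∀ v, ∑ e ∈ K.filter (fun e => v ∈ edge e), α e ≤ A)
    (hB : ∀ v, ∑ e ∈ K.filter (fun e => v ∈ edge e), β e ≤ 1 - A)
    (hF : (frac x).Nonempty)
    (hW : ∀ e ∈ K, 1 ≤ ∑ v ∈ edge e ∩ frac x, (α e * x v + β e * (1 - x v))) :
    ∃ d : V → ℝ, d ≠ 0 ∧ (∀ v, v ∉ frac x → d v = 0) ∧
      (∀ u, ∑ v ∈ univ.filter (fun v => sig r x v = sig r x u), d v = 0) ∧
      ∀ e ∈ K, ∑ v ∈ edge e, d v = 0 := by
  classical
  set F := frac x with hFdef
  set Q := F.image (sig r x) with hQ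
  obtain ⟨v0, hv0⟩ := hF
  have hA0 : 0 ≤ A := le_trans (sum_nonneg fun e _ => hα e) (hA v0)
  have hA1 : 0 ≤ 1 - A := le_trans (sum_nonneg fun e _ => hβ e) (hB v0)
  -- from a kernel vector for `Q` and `K'` to the class condition
  have hker : ∀ K' : Finset E, Q.card + K'.card < F.card →
      ∃ d : V → ℝ, d ≠ 0 ∧ (∀ v, v ∉ F → d v = 0) ∧
        (∀ u, ∑ v ∈ univ.filter (fun v => sig r x v = sig r x u), d v = 0) ∧
        ∀ e ∈ K', ∑ v ∈ edge e, d v = 0 := by
    intro K' hlt
    obtain ⟨d, hd0, hdF, hd⟩ := exists_kernel F (Q.disjSum K')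
      (Sum.elim (fun k => univ.filter (fun v => sig r x v = k)) edge)
      (by rwa [card_disjSum])
    refine ⟨d, hd0, hdF, ?_, fun e he => hd (Sum.inr e) (by simpa using he)⟩
    intro u
    by_cases hu : sig r x u ∈ Q
    · exact hd (Sum.inl (sig r x u)) (by simpa using hu)
    · apply sum_eq_zero
      intro v hv
      apply hdF
      intro hvF
      apply hu
      rw [← (mem_filter.1 hv).2]
      exact mem_image_of_mem _ hvF
  -- tokens
  set a : V → ℝ := fun v => ∑ e ∈ K.filter (fun e => v ∈ edge e), α e with ha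
  set b : V → ℝ := fun v => ∑ e ∈ K.filter (fun e => v ∈ edge e), β e with hb
  have hK : (K.card : ℝ) ≤ ∑ v ∈ F, (a v * x v + b v * (1 - x v)) := by
    have h1 : (K.card : ℝ) ≤ ∑ e ∈ K, ∑ v ∈ edge e ∩ F, (α e * x v + β e * (1 - x v)) := by
      rw [card_eq_sum_ones]
      push_cast
      exact sum_le_sum hW
    refine h1.trans (le_of_eq ?_)
    simp only [ha, hb, sum_mul, ← sum_add_distrib]
    rw [sum_comm' (t' := F) (s' := fun v => K.filter (fun e => v ∈ edge e))]
    intro e v
    simp only [mem_inter, mem_filter]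
    tauto
  have hQc : (Q.card : ℝ) ≤ ∑ v ∈ F, ((1 - A) * x v + A * (1 - x v)) := by
    rw [← sum_fiberwise_of_maps_to (t := Q) (g := sig r x) (fun v hv => mem_image_of_mem _ hv),
      card_eq_sum_ones]
    push_cast
    apply sum_le_sum
    intro k hk
    obtain ⟨u, hu, rfl⟩ := mem_image.1 hk
    obtain ⟨h1, h2⟩ := class_mass hr hx hu
    rw [sum_add_distrib, ← mul_sum, ← mul_sum]
    nlinarith [mul_le_mul_of_nonneg_left h1 hA1, mul_le_mul_of_nonneg_left h2 hA0]
  have htot : (F.card : ℝ) = ∑ v ∈ F, (A * x v + (1 - A) * (1 - x v))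
      + ∑ v ∈ F, ((1 - A) * x v + A * (1 - x v)) := by
    rw [← sum_add_distrib, card_eq_sum_ones]
    push_cast
    apply sum_congr rfl
    intro v _
    ring
  have hterm : ∀ v ∈ F, 0 ≤ (A - a v) * x v + ((1 - A) - b v) * (1 - x v) := by
    intro v hv
    have h := mem_frac.1 hv
    have h1 : 0 ≤ A - a v := sub_nonneg.2 (hA v)
    have h2 : 0 ≤ (1 - A) - b v := sub_nonneg.2 (hB v)
    have := mul_nonneg h1 h.1.le
    have := mul_nonneg h2 (sub_pos.2 h.2).le
    linarith
  have hdiff : ∑ v ∈ F, ((A - a v) * x v + ((1 - A) - b v) * (1 - x v))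
      = ∑ v ∈ F, (A * x v + (1 - A) * (1 - x v)) - ∑ v ∈ F, (a v * x v + b v * (1 - x v)) := by
    rw [← sum_sub_distrib]
    apply sum_congr rfl
    intro v _
    ring
  by_cases hlt : Q.card + K.card < F.card
  · exact hker K hlt
  · have hle : (F.card : ℝ) ≤ Q.card + K.card := by exact_mod_cast not_lt.1 hlt
    have hsum0 : ∑ v ∈ F, ((A - a v) * x v + ((1 - A) - b v) * (1 - x v)) = 0 := by
      apply le_antisymm _ (sum_nonneg hterm)
      rw [hdiff]
      linarith
    have hzero := (sum_eq_zero_iff_of_nonneg hterm).1 hsum0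
    have hab : ∀ v ∈ F, a v + b v = 1 := by
      intro v hv
      have h := mem_frac.1 hv
      have h1 : 0 ≤ A - a v := sub_nonneg.2 (hA v)
      have h2 : 0 ≤ (1 - A) - b v := sub_nonneg.2 (hB v)
      have h3 := mul_nonneg h1 h.1.le
      have h4 := mul_nonneg h2 (sub_pos.2 h.2).le
      have h5 := hzero v hv
      have h6 : (A - a v) * x v = 0 := by linarith
      have h7 : ((1 - A) - b v) * (1 - x v) = 0 := by linarith
      rcases mul_eq_zero.1 h6 with h6 | h6
      · rcases mul_eq_zero.1 h7 with h7 | h7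
        · linarith
        · linarith [h.2]
      · linarith [h.1]
    obtain ⟨e0, he0, hpos⟩ : ∃ e0 ∈ K, 0 < α e0 + β e0 := by
      by_contra hc
      push Not at hc
      have h1 := hab v0 hv0
      simp only [ha, hb, ← sum_add_distrib] at h1
      have : ∑ e ∈ K.filter (fun e => v0 ∈ edge e), (α e + β e) ≤ 0 :=
        sum_nonpos fun e he => hc e (mem_filter.1 he).1
      linarith
    have hge : (Q.card : ℝ) + K.card ≤ F.card := by
      have := sum_nonneg hterm
      rw [hdiff] at this
      linarith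
    have hge' : Q.card + K.card ≤ F.card := by exact_mod_cast hge
    have hKpos : 0 < K.card := card_pos.2 ⟨e0, he0⟩
    obtain ⟨d, hd0, hdF, hcl, hd⟩ := hker (K.erase e0) (by rw [card_erase_of_mem he0]; omega)
    refine ⟨d, hd0, hdF, hcl, ?_⟩
    have hall : ∑ v, d v = 0 := by
      rw [← sum_fiberwise_of_maps_to (t := univ.image (sig r x)) (g := sig r x)
        (fun v hv => mem_image_of_mem _ hv)]
      apply sum_eq_zero
      intro k hk
      obtain ⟨u, _, rfl⟩ := mem_image.1 hk
      exact hcl u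
    have hweighted : ∑ e ∈ K, (α e + β e) * ∑ v ∈ edge e, d v = 0 := by
      have h1 : ∑ e ∈ K, (α e + β e) * ∑ v ∈ edge e, d v = ∑ v, (a v + b v) * d v := by
        simp only [ha, hb, mul_sum, ← sum_add_distrib, sum_mul]
        rw [sum_comm' (t' := univ) (s' := fun v => K.filter (fun e => v ∈ edge e))]
        intro e v
        simp only [mem_filter, mem_univ]
        tauto
      rw [h1, ← hall]
      apply sum_congr rfl
      intro v _
      by_cases hv : v ∈ F
      · rw [hab v hv, one_mul]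
      · rw [hdF v hv, mul_zero]
    have he0z : ∑ v ∈ edge e0, d v = 0 := by
      have hz : ∑ e ∈ K.erase e0, (α e + β e) * ∑ v ∈ edge e, d v = 0 :=
        sum_eq_zero (fun e he => by rw [hd e he, mul_zero])
      rw [← add_sum_erase K _ he0, hz, add_zero] at hweighted
      exact (mul_eq_zero.1 hweighted).resolve_left hpos.ne'
    intro e he
    by_cases h : e = e0
    · rw [h]; exact he0z
    · exact hd e (mem_erase.2 ⟨h, he⟩)

end Pool.Agent.P.MP_1639c2_lc
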