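import Pool.Agent.P.MP_1639c2_lc.Round

/-!
The instance with maximum degree two on which the linear programming bound cannot be met with
violation one.
-/

namespace Pool.Agent.P.MP_1639c2_lc

open Finset

/-- Ground set: ten parts with three elements each. -/
abbrev GV : Type := Fin 10 × Fin 3

/-- The partition matroid: at most one element from each part. -/
noncomputable def gM : Matroid GV := (Matroid.freeOn (Set.univ : Set (Fin 10))).comap Prod.fst

/-- The hyperedges. -/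
def gEdge : Fin 10 → Finset GV :=
  ![{(2, 0), (3, 0), (4, 0), (0, 2), (1, 2)},
    {(3, 1), (4, 0), (5, 1)},
    {(3, 1), (5, 0), (6, 1)},
    {(4, 1), (7, 0), (8, 0), (2, 2), (3, 2)},
    {(5, 0), (6, 0), (7, 1), (8, 0)},
    {(2, 0), (4, 1), (5, 1), (6, 1), (7, 1), (4, 2), (5, 2)},
    {(0, 0), (1, 1), (2, 1), (3, 0)},
    {(0, 1), (1, 0), (2, 1), (6, 2), (7, 2)},
    {(0, 0), (1, 0), (9, 1)},
    {(0, 1), (1, 1), (9, 1), (8, 2), (9, 2)}]

/-- Lower bounds. -/
def gL : Fin 10 → ℤ := ![2, 0, 0, 2, 0, 2, 0, 2, 0, 2]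

/-- Upper bounds. -/
def gU : Fin 10 → ℤ := ![5, 1, 1, 5, 2, 7, 2, 5, 1, 5]

/-- Numerators of the fractional point, over the denominator 188. -/
def gNum (v : GV) : ℕ :=
  if v.2 = 0 then ![1, 93, 92, 184, 100, 104, 108, 156, 132, 94] v.1
  else if v.2 = 1 then 188 - ![1, 93, 92, 184, 100, 104, 108, 156, 132, 94] v.1 else 0

/-- Costs. -/
def gCost (v : GV) : ℕ := if v.2 = 2 ∨ v = (0, 1) then 1 else 0

theorem gM_ground : gM.E = Set.univ := by simp [gM]

theorem gM_rk (S : Finset GV) : rk gM S = (S.image Prod.fst).card := by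
  have : gM.eRk (S : Set GV) = ((S.image Prod.fst : Finset (Fin 10)) : Set (Fin 10)).encard := by
    rw [gM, Matroid.eRk_comap, Matroid.eRk_freeOn (Set.subset_univ _), coe_image]
  rw [rk, this, Set.encard_coe_eq_coe_finsetCard]
  simp

theorem gM_isBase_iff (B : Finset GV) :
    gM.IsBase (B : Set GV) ↔ Set.BijOn Prod.fst (B : Set GV) Set.univ := by
  rw [gM, Matroid.comap_isBase_iff]
  have : Prod.fst '' (Prod.fst ⁻¹' (Matroid.freeOn (Set.univ : Set (Fin 10))).E : Set GV)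
      = Set.univ := by
    simp [Set.range_eq_univ.2 Prod.fst_surjective]
  rw [this]
  simp only [Matroid.freeOn_isBasis_iff, Set.subset_univ, and_true, Matroid.freeOn_ground,
    Set.preimage_univ]
  constructor
  · rintro ⟨h1, h2⟩
    exact ⟨fun _ _ => Set.mem_univ _, h2, by rw [Set.SurjOn, h1]⟩
  · rintro ⟨-, h2, h3⟩
    exact ⟨Set.eq_univ_of_univ_subset h3, h2⟩

theorem part_sum : ∀ i : Fin 10, ∑ j : Fin 3, gNum (i, j) = 188 := by decide

theorem gx_base : InBasePolytope gM (fun v => (gNum v : ℝ) / 188) := by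
  have hS : ∀ S : Finset GV, ∑ v ∈ S, gNum v ≤ 188 * (S.image Prod.fst).card := by
    intro S
    calc ∑ v ∈ S, gNum v ≤ ∑ v ∈ (S.image Prod.fst) ×ˢ (univ : Finset (Fin 3)), gNum v := by
          apply sum_le_sum_of_subset
          intro v hv
          exact mem_product.2 ⟨mem_image_of_mem _ hv, mem_univ _⟩
      _ = 188 * (S.image Prod.fst).card := by
          rw [sum_product, sum_congr rfl (fun i _ => part_sum i)]
          simp [mul_comm]
  refine ⟨fun v => by positivity, fun S => ?_, ?_⟩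
  · rw [← sum_div, gM_rk, div_le_iff₀ (by norm_num)]
    have := hS S
    have h2 : ((∑ v ∈ S, gNum v : ℕ) : ℝ) ≤ ((188 * (S.image Prod.fst).card : ℕ) : ℝ) := by
      exact_mod_cast this
    push_cast at h2
    linarith
  · rw [← sum_div, gM_rk]
    have h1 : ∑ v : GV, gNum v = 1880 := by decide
    have h2 : ((univ : Finset GV).image Prod.fst).card = 10 := by decide
    rw [h2, ← Nat.cast_sum, h1]
    norm_num

theorem gx_rows : ∀ e, 188 * gL e ≤ ((∑ v ∈ gEdge e, gNum v : ℕ) : ℤ) ∧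
    ((∑ v ∈ gEdge e, gNum v : ℕ) : ℤ) ≤ 188 * gU e := by decide

theorem gx_feasible : LPFeasible gM gEdge gL gU (fun v => (gNum v : ℝ) / 188) := by
  refine ⟨gx_base, fun e => ?_⟩
  obtain ⟨h1, h2⟩ := gx_rows e
  have h1' : (188 : ℝ) * gL e ≤ ((∑ v ∈ gEdge e, gNum v : ℕ) : ℝ) := by exact_mod_cast h1
  have h2' : ((∑ v ∈ gEdge e, gNum v : ℕ) : ℝ) ≤ (188 : ℝ) * gU e := by exact_mod_cast h2
  rw [← sum_div, ← Nat.cast_sum, le_div_iff₀ (by norm_num), div_le_iff₀ (by norm_num)]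
  constructor <;> linarith

theorem gx_cost : ∑ v, (gCost v : ℝ) * ((gNum v : ℝ) / 188) = 187 / 188 := by
  have h : ∑ v : GV, gCost v * gNum v = 187 := by decide
  have h2 : ∑ v, (gCost v : ℝ) * ((gNum v : ℝ) / 188)
      = ((∑ v : GV, gCost v * gNum v : ℕ) : ℝ) / 188 := by
    push_cast
    rw [sum_div]
    exact sum_congr rfl fun v _ => by ring
  rw [h2, h]
  norm_num

/-- The transversal chosen by nine bits, with the first part fixed. -/
def pick (b1 b2 b3 b4 b5 b6 b7 b8 b9 : Bool) (i : Fin 10) : Fin 3 :=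
  if ![false, b1, b2, b3, b4, b5, b6, b7, b8, b9] i then 1 else 0

theorem no_cheap : ∀ b1 b2 b3 b4 b5 b6 b7 b8 b9 : Bool, ∃ e : Fin 10,
    (((gEdge e).filter (fun v => v.2 = pick b1 b2 b3 b4 b5 b6 b7 b8 b9 v.1)).card : ℤ)
        < gL e - 1 ∨
      gU e + 1 <
        (((gEdge e).filter (fun v => v.2 = pick b1 b2 b3 b4 b5 b6 b7 b8 b9 v.1)).card : ℤ) := by
  decide +kernel

theorem g_near (B : Finset GV) (hB : NearFeasible gM gEdge gL gU 1 1 B) :
    (1 : ℝ) ≤ ∑ v ∈ B, (gCost v : ℝ) := by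
  by_contra hc
  push Not at hc
  have hzero : ∀ v ∈ B, gCost v = 0 := by
    intro v hv
    by_contra h
    have h1 : (1 : ℝ) ≤ gCost v := by exact_mod_cast Nat.one_le_iff_ne_zero.2 h
    have h2 : (gCost v : ℝ) ≤ ∑ v ∈ B, (gCost v : ℝ) :=
      single_le_sum (f := fun v => (gCost v : ℝ)) (fun _ _ => Nat.cast_nonneg _) hv
    linarith
  obtain ⟨-, hinj, hsurj⟩ := (gM_isBase_iff B).1 hB.1
  have hex : ∀ i : Fin 10, ∃ j : Fin 3, (i, j) ∈ B := by
    intro i
    obtain ⟨v, hv, rfl⟩ := hsurj (Set.mem_univ i)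
    exact ⟨v.2, hv⟩
  choose f hf using hex
  have hmem : ∀ v : GV, v ∈ B ↔ v.2 = f v.1 := by
    intro v
    constructor
    · intro hv
      have := hinj (Finset.mem_coe.2 hv) (Finset.mem_coe.2 (hf v.1)) rfl
      exact congrArg Prod.snd this
    · intro h
      have : v = (v.1, f v.1) := Prod.ext rfl h
      rw [this]
      exact hf _
  have hkey : ∀ (i : Fin 10) (j : Fin 3), gCost (i, j) = 0 →
      j = (if decide (j = 1) then 1 else 0) ∧ (i = 0 → j = 0) := by decide
  have hpick : ∀ i, f i = pick (f 1 = 1) (f 2 = 1) (f 3 = 1) (f 4 = 1) (f 5 = 1) (f 6 = 1)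
      (f 7 = 1) (f 8 = 1) (f 9 = 1) i := by
    intro i
    have h := hkey i (f i) (hzero _ (hf i))
    fin_cases i
    · exact h.2 rfl
    all_goals exact h.1
  obtain ⟨e, he⟩ := no_cheap (f 1 = 1) (f 2 = 1) (f 3 = 1) (f 4 = 1) (f 5 = 1) (f 6 = 1)
      (f 7 = 1) (f 8 = 1) (f 9 = 1)
  have hset : (gEdge e).filter (fun v => v.2 = pick (f 1 = 1) (f 2 = 1) (f 3 = 1) (f 4 = 1)
      (f 5 = 1) (f 6 = 1) (f 7 = 1) (f 8 = 1) (f 9 = 1) v.1) = B ∩ gEdge e := by
    ext v
    rw [mem_filter, mem_inter, hmem, ← hpick, and_comm]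
  rw [hset] at he
  have := hB.2 e
  omega

theorem g_feasible : NearFeasible gM gEdge gL gU 0 0 (univ ×ˢ {2}) := by
  constructor
  · rw [gM_isBase_iff]
    refine ⟨fun _ _ => Set.mem_univ _, ?_, ?_⟩
    · intro v hv w hw h
      have h1 : v.2 = 2 := mem_singleton.1 (mem_product.1 (Finset.mem_coe.1 hv)).2
      have h2 : w.2 = 2 := mem_singleton.1 (mem_product.1 (Finset.mem_coe.1 hw)).2
      exact Prod.ext h (h1.trans h2.symm)
    · intro i _
      exact ⟨(i, 2), by simp, rfl⟩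
  · decide +kernel

theorem g_degree : (∀ v, degree gEdge v ≤ 2) ∧ ∃ v, degree gEdge v = 2 := by decide +kernel

theorem g_inj : Function.Injective gEdge := by decide +kernel

theorem g_le : ∀ e, gL e ≤ gU e := by decide

end Pool.Agent.P.MP_1639c2_lc
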