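import Pool.Agent.P.MP_1639c2_lc.Direction

/-!
Iterative rounding.
-/

namespace Pool.Agent.P.MP_1639c2_lc

open Finset

variable {V : Type} [Fintype V] [DecidableEq V] {E : Type} [DecidableEq E]
variable {r : Finset V → ℕ}

/-- The points that keep the integral coordinates of `x0` and its weight on the hyperedges of
`K`. -/
def Keep (r : Finset V → ℕ) (edge : E → Finset V) (K : Finset E) (x0 : V → ℝ) : Set (V → ℝ) :=
  {x | InP r x ∧ (∀ v, x0 v = 0 → x v = 0) ∧ (∀ v, x0 v = 1 → x v = 1) ∧
    ∀ e ∈ K, ∑ v ∈ edge e, x v = ∑ v ∈ edge e, x0 v}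

omit [DecidableEq E] in
theorem isCompact_keep (hr : RankLike r) (edge : E → Finset V) (K : Finset E) (x0 : V → ℝ) :
    IsCompact (Keep r edge K x0) := by
  apply IsCompact.of_isClosed_subset (isCompact_Icc (a := (0 : V → ℝ)) (b := 1))
  · unfold Keep InP
    simp only [Set.ofPred_and, Set.ofPred_forall]
    refine IsClosed.inter (IsClosed.inter ?_ (IsClosed.inter ?_ ?_))
      (IsClosed.inter ?_ (IsClosed.inter ?_ ?_))
    · exact isClosed_iInter fun v => isClosed_le continuous_const (by fun_prop)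
    · exact isClosed_iInter fun S => isClosed_le (by fun_prop) continuous_const
    · exact isClosed_eq (by fun_prop) continuous_const
    · exact isClosed_iInter fun v => isClosed_iInter fun _ =>
        isClosed_eq (by fun_prop) continuous_const
    · exact isClosed_iInter fun v => isClosed_iInter fun _ =>
        isClosed_eq (by fun_prop) continuous_const
    · exact isClosed_iInter fun v => isClosed_iInter fun _ =>
        isClosed_eq (by fun_prop) continuous_const
  · intro x hx
    exact ⟨fun v => hx.1.1 v, fun v => hx.1.le_one hr v⟩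

omit [DecidableEq E] in
/-- An extreme optimal point. -/
theorem exists_extreme (hr : RankLike r) (edge : E → Finset V) (K : Finset E) (c x0 : V → ℝ)
    (hx0 : InP r x0) :
    ∃ x ∈ Keep r edge K x0, ∑ v, c v * x v ≤ ∑ v, c v * x0 v ∧
      ∀ d : V → ℝ, (fun v => x v + d v) ∈ Keep r edge K x0 →
        (fun v => x v - d v) ∈ Keep r edge K x0 → d = 0 := by
  have hmem : x0 ∈ Keep r edge K x0 := ⟨hx0, fun _ h => h, fun _ h => h, fun _ _ => rfl⟩
  have hc := isCompact_keep hr edge K x0
  obtain ⟨x1, hx1, hmin⟩ := hc.exists_isMinOn ⟨x0, hmem⟩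
    (f := fun x : V → ℝ => ∑ v, c v * x v) (Continuous.continuousOn (by fun_prop))
  have hc2 : IsCompact (Keep r edge K x0 ∩ {x | ∑ v, c v * x v ≤ ∑ v, c v * x1 v}) :=
    hc.inter_right (isClosed_le (by fun_prop) continuous_const)
  obtain ⟨x, hx, hmax⟩ := hc2.exists_isMaxOn ⟨x1, hx1, le_refl (∑ v, c v * x1 v)⟩
    (f := fun x : V → ℝ => ∑ v, x v ^ 2) (Continuous.continuousOn (by fun_prop))
  have hxle : ∑ v, c v * x v ≤ ∑ v, c v * x1 v := hx.2
  refine ⟨x, hx.1, hxle.trans (hmin hmem), ?_⟩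
  intro d hp hm
  have h1 : ∑ v, c v * x1 v ≤ ∑ v, c v * (x v + d v) := hmin hp
  have h2 : ∑ v, c v * x1 v ≤ ∑ v, c v * (x v - d v) := hmin hm
  have e1 : ∑ v, c v * (x v + d v) = ∑ v, c v * x v + ∑ v, c v * d v := by
    rw [← sum_add_distrib]; exact sum_congr rfl fun v _ => by ring
  have e2 : ∑ v, c v * (x v - d v) = ∑ v, c v * x v - ∑ v, c v * d v := by
    rw [← sum_sub_distrib]; exact sum_congr rfl fun v _ => by ring
  have h3 : ∑ v, (x v + d v) ^ 2 ≤ ∑ v, x v ^ 2 :=
    hmax ⟨hp, show ∑ v, c v * (x v + d v) ≤ ∑ v, c v * x1 v by linarith⟩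
  have h4 : ∑ v, (x v - d v) ^ 2 ≤ ∑ v, x v ^ 2 :=
    hmax ⟨hm, show ∑ v, c v * (x v - d v) ≤ ∑ v, c v * x1 v by linarith⟩
  have e3 : ∑ v, (x v + d v) ^ 2 + ∑ v, (x v - d v) ^ 2 = 2 * ∑ v, x v ^ 2 + 2 * ∑ v, d v ^ 2 := by
    rw [mul_sum, mul_sum, ← sum_add_distrib, ← sum_add_distrib]
    exact sum_congr rfl fun v _ => by ring
  have h5 : ∑ v, d v ^ 2 = 0 := le_antisymm (by linarith) (sum_nonneg fun v _ => sq_nonneg _)
  funext v
  have := (sum_eq_zero_iff_of_nonneg (fun v _ => sq_nonneg (d v))).1 h5 v (mem_univ v)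
  simpa using this

/-- A light hyperedge has small fractional mass. -/
theorem light_bound {s t a b : ℝ} {n p : ℕ} (ha : 0 ≤ a) (hb : 0 ≤ b)
    (hst : s + t = n) (ht : 0 < s → 0 < t) (hW : a * s + b * t < 1)
    (hp : 1 ≤ a * (p + 1) + min a b) : s < p + 1 := by
  by_contra hc
  push Not at hc
  have hp0 : (0 : ℝ) ≤ p := Nat.cast_nonneg p
  have ht' : 0 < t := ht (by linarith)
  have hn : (p : ℝ) + 1 < n := by linarith
  have hn' : p + 1 < n := by exact_mod_cast hn
  have hn2 : (p : ℝ) + 2 ≤ n := by exact_mod_cast hn'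
  have h1 := min_le_left a b
  have h2 := min_le_right a b
  have h0 : 0 ≤ min a b := le_min ha hb
  have h3 : min a b * (s - (p + 1)) ≤ a * (s - (p + 1)) :=
    mul_le_mul_of_nonneg_right h1 (by linarith)
  have h4 : min a b * t ≤ b * t := mul_le_mul_of_nonneg_right h2 ht'.le
  have h5 : min a b * 1 ≤ min a b * (s - (p + 1) + t) :=
    mul_le_mul_of_nonneg_left (by linarith) h0
  nlinarith

theorem round_aux (hr : RankLike r) (edge : E → Finset V) (c : V → ℝ) (α β : E → ℝ) (A : ℝ)
    (hα : ∀ e, 0 ≤ α e) (hβ : ∀ e, 0 ≤ β e) (K : Finset E) :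
    (∀ v, ∑ e ∈ K.filter (fun e => v ∈ edge e), α e ≤ A) →
    (∀ v, ∑ e ∈ K.filter (fun e => v ∈ edge e), β e ≤ 1 - A) →
    ∀ x0, InP r x0 → ∃ y, InP r y ∧ (∀ v, y v = 0 ∨ y v = 1) ∧
      (∀ v, x0 v = 0 → y v = 0) ∧ (∀ v, x0 v = 1 → y v = 1) ∧
      ∑ v, c v * y v ≤ ∑ v, c v * x0 v ∧
      ∀ e ∈ K, ∀ p : ℕ,
        (1 ≤ α e * (p + 1) + min (α e) (β e) →
          ∑ v ∈ edge e, x0 v - ∑ v ∈ edge e, y v < p + 1) ∧
        (1 ≤ β e * (p + 1) + min (α e) (β e) →
          ∑ v ∈ edge e, y v - ∑ v ∈ edge e, x0 v < p + 1) := by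
  induction K using Finset.strongInduction with
  | H K ih =>
  intro hA hB x0 hx0
  obtain ⟨x, hx, hcost, hext⟩ := exists_extreme hr edge K c x0 hx0
  by_cases hF : (frac x).Nonempty
  · by_cases hW : ∀ e ∈ K, 1 ≤ ∑ v ∈ edge e ∩ frac x, (α e * x v + β e * (1 - x v))
    · exfalso
      obtain ⟨d, hd0, hdF, hcl, hdK⟩ := exists_direction hr hx.1 edge K α β A hα hβ hA hB hF hW
      have hz : ∀ v, x v = 0 → d v = 0 := fun v h => hdF v (by rw [mem_frac, h]; simp)
      have ho : ∀ v, x v = 1 → d v = 0 := fun v h => hdF v (by rw [mem_frac, h]; simp)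
      obtain ⟨ε, hε, h1, h2⟩ := feasible_direction hx.1 d hz hcl
      have hkeep : ∀ η : ℝ, InP r (fun v => x v + η * d v) →
          (fun v => x v + η * d v) ∈ Keep r edge K x0 := by
        intro η h
        refine ⟨h, fun v hv => ?_, fun v hv => ?_, fun e he => ?_⟩
        · have := hx.2.1 v hv
          simp [this, hz v this]
        · have := hx.2.2.1 v hv
          simp [this, ho v this]
        · rw [sum_add_distrib, ← mul_sum, hdK e he, hx.2.2.2 e he]
          simp
      have := hext (fun v => ε * d v) (hkeep ε h1) (by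
        have := hkeep (-ε) h2
        simpa [sub_eq_add_neg] using this)
      apply hd0
      funext v
      have := congrFun this v
      simpa [hε.ne'] using this
    · push Not at hW
      obtain ⟨e0, he0, hW⟩ := hW
      have hsub : ∀ v, (K.erase e0).filter (fun e => v ∈ edge e) ⊆
          K.filter (fun e => v ∈ edge e) := fun v => filter_subset_filter _ (erase_subset _ _)
      obtain ⟨y, hy, hint, hy0, hy1, hcy, hb⟩ := ih (K.erase e0) (erase_ssubset he0)
        (fun v => (sum_le_sum_of_subset_of_nonneg (hsub v) fun e _ _ => hα e).trans (hA v))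
        (fun v => (sum_le_sum_of_subset_of_nonneg (hsub v) fun e _ _ => hβ e).trans (hB v))
        x hx.1
      refine ⟨y, hy, hint, fun v h => hy0 v (hx.2.1 v h), fun v h => hy1 v (hx.2.2.1 v h),
        hcy.trans hcost, ?_⟩
      intro e he p
      rw [← hx.2.2.2 e he]
      by_cases h : e = e0
      · subst h
        set G := edge e ∩ frac x with hG
        have hsame : ∀ v ∈ edge e, v ∉ G → y v = x v := by
          intro v hv hvG
          have : v ∉ frac x := fun h => hvG (mem_inter.2 ⟨hv, h⟩)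
          rcases hx.1.of_notMem_frac hr this with h | h
          · rw [hy0 v h, h]
          · rw [hy1 v h, h]
        have hdiff : ∑ v ∈ edge e, x v - ∑ v ∈ edge e, y v = ∑ v ∈ G, (x v - y v) := by
          rw [← sum_sub_distrib]
          symm
          apply sum_subset inter_subset_left
          intro v hv hvG
          rw [hsame v hv hvG, sub_self]
        have hlo : ∑ v ∈ G, (x v - y v) ≤ ∑ v ∈ G, x v :=
          sum_le_sum fun v _ => by linarith [hy.1 v]
        have hhi : -∑ v ∈ G, (x v - y v) ≤ ∑ v ∈ G, (1 - x v) := by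
          rw [← sum_neg_distrib]
          exact sum_le_sum fun v _ => by linarith [hy.le_one hr v]
        have hst : ∑ v ∈ G, x v + ∑ v ∈ G, (1 - x v) = G.card := by
          rw [← sum_add_distrib]; simp
        have hne : ∀ f : V → ℝ, 0 < ∑ v ∈ G, f v → G.Nonempty := by
          intro f hf
          by_contra hc
          rw [not_nonempty_iff_eq_empty] at hc
          simp [hc] at hf
        have hW' : α e * ∑ v ∈ G, x v + β e * ∑ v ∈ G, (1 - x v) < 1 := by
          rw [mul_sum, mul_sum, ← sum_add_distrib]; exact hW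
        constructor
        · intro hp
          have := light_bound (hα e) (hβ e) hst (fun h => sum_pos
            (fun v hv => sub_pos.2 (mem_frac.1 (mem_inter.1 hv).2).2) (hne _ h)) hW' hp
          linarith
        · intro hp
          have := light_bound (s := ∑ v ∈ G, (1 - x v)) (t := ∑ v ∈ G, x v) (n := G.card)
            (hβ e) (hα e) (by linarith) (fun h => sum_pos
            (fun v hv => (mem_frac.1 (mem_inter.1 hv).2).1) (hne _ h)) (by linarith)
            (by rwa [min_comm])
          linarith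
      · exact hb e (mem_erase.2 ⟨h, he⟩) p
  · rw [not_nonempty_iff_eq_empty] at hF
    refine ⟨x, hx.1, fun v => hx.1.of_notMem_frac hr (by simp [hF]), hx.2.1, hx.2.2.1, hcost, ?_⟩
    intro e he p
    rw [hx.2.2.2 e he, sub_self]
    have : (0 : ℝ) < p + 1 := by positivity
    exact ⟨fun _ => this, fun _ => this⟩

omit [Fintype V] [DecidableEq V] in
theorem rk_cast (M : Matroid V) (S : Finset V) : (rk M S : ℕ∞) = M.eRk (S : Set V) := by
  unfold rk
  apply ENat.natCast_toNat
  exact ((M.eRk_le_encard _).trans_lt S.finite_toSet.encard_lt_top).ne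

omit [Fintype V] in
theorem rankLike_rk (M : Matroid V) : RankLike (rk M) where
  submod S T := by
    have := M.eRk_inter_add_eRk_union_le (S : Set V) (T : Set V)
    rw [← coe_inter, ← coe_union, ← rk_cast, ← rk_cast, ← rk_cast, ← rk_cast] at this
    have h2 : rk M (S ∩ T) + rk M (S ∪ T) ≤ rk M S + rk M T := by exact_mod_cast this
    omega
  empty := by simp [rk]
  single v := by
    have := M.eRk_singleton_le v
    rw [← coe_singleton, ← rk_cast] at this
    exact_mod_cast this

/-- An integral point of the base polytope is a basis. -/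
theorem isBase_of_integral (M : Matroid V) {y : V → ℝ} (hy : InP (rk M) y)
    (hint : ∀ v, y v = 0 ∨ y v = 1) :
    ∃ B : Finset V, M.IsBase (B : Set V) ∧ ∀ v, y v = if v ∈ B then 1 else 0 := by
  classical
  set B := univ.filter (fun v => y v = 1) with hB
  have hyB : ∀ v, y v = if v ∈ B then 1 else 0 := by
    intro v
    rcases hint v with h | h <;> simp [hB, h]
  refine ⟨B, ?_, hyB⟩
  have h1 : ∑ v ∈ B, y v = B.card := by
    rw [sum_congr rfl (fun v hv => (mem_filter.1 hv).2)]; simp [hB]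
  have h2 : ∑ v, y v = B.card := by
    rw [sum_congr rfl (fun v _ => hyB v)]; simp
  have h3 : B.card ≤ rk M B := by
    have := hy.2.1 B
    rw [h1] at this
    exact_mod_cast this
  have h4 : B.card = rk M univ := by
    have := hy.2.2
    rw [h2] at this
    exact_mod_cast this
  have h5 : (B : Set V).encard ≤ M.eRk B := by
    rw [← rk_cast, Set.encard_coe_eq_coe_finsetCard]
    exact_mod_cast h3
  have hI : M.Indep B := by
    rw [Matroid.indep_iff_eRk_eq_encard_of_finite B.finite_toSet]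
    exact le_antisymm (M.eRk_le_encard _) h5
  apply hI.isBase_of_eRk_ge B.finite_toSet
  refine le_trans ?_ h5
  rw [← M.eRk_univ_eq, ← coe_univ, ← rk_cast, ← h4, Set.encard_coe_eq_coe_finsetCard]

theorem rounding [Fintype E] (M : Matroid V) (edge : E → Finset V) (l u : E → ℤ) (c x : V → ℝ)
    (hx : LPFeasible M edge l u x) (α β : E → ℝ) (A : ℝ)
    (hα : ∀ e, 0 ≤ α e) (hβ : ∀ e, 0 ≤ β e)
    (hA : ∀ v, ∑ e ∈ univ.filter (fun e => v ∈ edge e), α e ≤ A)
    (hB : ∀ v, ∑ e ∈ univ.filter (fun e => v ∈ edge e), β e ≤ 1 - A) :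
    ∃ B : Finset V, M.IsBase (B : Set V) ∧ ∑ v ∈ B, c v ≤ ∑ v, c v * x v ∧
      ∀ e, ∀ p : ℕ,
        (1 ≤ α e * (p + 1) + min (α e) (β e) → l e - p ≤ ((B ∩ edge e).card : ℤ)) ∧
        (1 ≤ β e * (p + 1) + min (α e) (β e) → ((B ∩ edge e).card : ℤ) ≤ u e + p) := by
  obtain ⟨y, hy, hint, -, -, hc, hb⟩ :=
    round_aux (rankLike_rk M) edge c α β A hα hβ univ hA hB x hx.1
  obtain ⟨B, hBase, hyB⟩ := isBase_of_integral M hy hint
  refine ⟨B, hBase, ?_, ?_⟩
  · refine le_trans (le_of_eq ?_) hc
    simp only [hyB]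
    simp
  · intro e p
    have hcard : ∑ v ∈ edge e, y v = ((B ∩ edge e).card : ℝ) := by
      rw [sum_congr rfl (fun v _ => hyB v), inter_comm]
      simp
    obtain ⟨h1, h2⟩ := hb e (mem_univ e) p
    rw [hcard] at h1 h2
    constructor
    · intro hp
      have h3 : ((l e : ℤ) : ℝ) - p < ((B ∩ edge e).card : ℝ) + 1 := by
        linarith [h1 hp, (hx.2 e).1]
      have h4 : l e - p < ((B ∩ edge e).card : ℤ) + 1 := by exact_mod_cast h3
      omega
    · intro hp
      have h3 : ((B ∩ edge e).card : ℝ) < ((u e : ℤ) : ℝ) + p + 1 := by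
        linarith [h2 hp, (hx.2 e).2]
      have h4 : ((B ∩ edge e).card : ℤ) < u e + p + 1 := by exact_mod_cast h3
      omega

end Pool.Agent.P.MP_1639c2_lc
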