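import Pool.Agent.P.MP_1639c2_lc.Defs

/-!
Tight sets of a point of the base polytope of an integer submodular function.
-/

namespace Pool.Agent.P.MP_1639c2_lc

open Finset Filter Topology

variable {V : Type} [Fintype V] [DecidableEq V]

/-- The data of a rank function that the rounding uses. -/
structure RankLike (r : Finset V → ℕ) : Prop where
  submod : ∀ S T, r (S ∪ T) + r (S ∩ T) ≤ r S + r T
  empty : r ∅ = 0
  single : ∀ v, r {v} ≤ 1

/-- The base polytope of `r`. -/
def InP (r : Finset V → ℕ) (x : V → ℝ) : Prop :=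
  (∀ v, 0 ≤ x v) ∧ (∀ S : Finset V, ∑ v ∈ S, x v ≤ (r S : ℝ)) ∧ ∑ v, x v = (r univ : ℝ)

/-- Tight sets. -/
def Tight (r : Finset V → ℕ) (x : V → ℝ) (S : Finset V) : Prop := ∑ v ∈ S, x v = (r S : ℝ)

variable {r : Finset V → ℕ} {x : V → ℝ}

theorem InP.le_one (hr : RankLike r) (hx : InP r x) (v : V) : x v ≤ 1 := by
  have h := hx.2.1 {v}
  rw [sum_singleton] at h
  have h2 : (r {v} : ℝ) ≤ 1 := by exact_mod_cast hr.single v
  linarith

theorem tight_union_inter (hr : RankLike r) (hx : InP r x) {S T : Finset V}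
    (hS : Tight r x S) (hT : Tight r x T) : Tight r x (S ∪ T) ∧ Tight r x (S ∩ T) := by
  have h1 := hx.2.1 (S ∪ T)
  have h2 := hx.2.1 (S ∩ T)
  have h3 : ∑ v ∈ S ∪ T, x v + ∑ v ∈ S ∩ T, x v = ∑ v ∈ S, x v + ∑ v ∈ T, x v :=
    sum_union_inter
  have h4 : (r (S ∪ T) : ℝ) + r (S ∩ T) ≤ r S + r T := by exact_mod_cast hr.submod S T
  unfold Tight at *
  constructor <;> linarith

open Classical in
/-- The tight sets containing `v`. -/
noncomputable def sig (r : Finset V → ℕ) (x : V → ℝ) (v : V) : Finset (Finset V) :=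
  univ.filter fun S => Tight r x S ∧ v ∈ S

theorem sig_eq_iff {u v : V} : sig r x u = sig r x v ↔ ∀ S, Tight r x S → (u ∈ S ↔ v ∈ S) := by
  constructor
  · intro h S hS
    have : S ∈ sig r x u ↔ S ∈ sig r x v := by rw [h]
    simpa [sig, hS] using this
  · intro h
    ext S
    simp only [sig, mem_filter, mem_univ, true_and]
    constructor
    · rintro ⟨h1, h2⟩; exact ⟨h1, (h S h1).1 h2⟩
    · rintro ⟨h1, h2⟩; exact ⟨h1, (h S h1).2 h2⟩

/-- The `x`-weight of a class of elements that no tight set separates is an integer. -/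
theorem class_sum_int (hr : RankLike r) (hx : InP r x) (u : V) :
    ∃ n : ℤ, ∑ v ∈ univ.filter (fun v => sig r x v = sig r x u), x v = n := by
  classical
  set T : Finset V := (univ.filter fun S => Tight r x S ∧ u ∈ S).inf id with hTdef
  set S : Finset V := (univ.filter fun S => Tight r x S ∧ u ∉ S).sup id with hSdef
  have hT : Tight r x T := by
    apply Finset.inf_induction (p := Tight r x)
    · exact hx.2.2
    · intro a ha b hb; exact (tight_union_inter hr hx ha hb).2
    · intro b hb; exact (mem_filter.1 hb).2.1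
  have hS : Tight r x S := by
    apply Finset.sup_induction (p := Tight r x)
    · simp [Tight, hr.empty]
    · intro a ha b hb; exact (tight_union_inter hr hx ha hb).1
    · intro b hb; exact (mem_filter.1 hb).2.1
  have hTS := (tight_union_inter hr hx hT hS).2
  have hcl : univ.filter (fun v => sig r x v = sig r x u) = T \ S := by
    ext v
    simp only [mem_filter, mem_univ, true_and, Finset.mem_sdiff, hTdef, hSdef, sig_eq_iff,
      Finset.mem_inf, Finset.mem_sup, id]
    constructor
    · intro h
      refine ⟨fun A hA => (h A hA.1).2 hA.2, ?_⟩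
      rintro ⟨A, hA, hv⟩
      exact hA.2 ((h A hA.1).1 hv)
    · rintro ⟨h1, h2⟩ A hA
      constructor
      · intro hv
        by_contra hu
        exact h2 ⟨A, ⟨hA, hu⟩, hv⟩
      · intro hu
        exact h1 A ⟨hA, hu⟩
  refine ⟨(r T : ℤ) - r (T ∩ S), ?_⟩
  rw [hcl]
  have h1 : ∑ v ∈ T \ S, x v + ∑ v ∈ T ∩ S, x v = ∑ v ∈ T, x v := by
    rw [← sum_union (disjoint_sdiff_inter T S), sdiff_union_inter]
  unfold Tight at hT hTS
  push_cast
  linarith

/-- A direction supported on positive coordinates with zero sum on every class is feasible in both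
senses. -/
theorem feasible_direction (hx : InP r x) (d : V → ℝ) (hd0 : ∀ v, x v = 0 → d v = 0)
    (hcl : ∀ u, ∑ v ∈ univ.filter (fun v => sig r x v = sig r x u), d v = 0) :
    ∃ ε : ℝ, 0 < ε ∧ InP r (fun v => x v + ε * d v) ∧ InP r (fun v => x v + (-ε) * d v) := by
  classical
  have htight : ∀ S, Tight r x S → ∑ v ∈ S, d v = 0 := by
    intro S hS
    rw [← sum_fiberwise_of_maps_to (t := S.image (sig r x)) (g := sig r x)
      (fun v hv => mem_image_of_mem _ hv)]
    apply sum_eq_zero
    intro k hk
    obtain ⟨u, hu, rfl⟩ := mem_image.1 hk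
    rw [← hcl u]
    apply sum_congr _ (fun _ _ => rfl)
    ext v
    simp only [mem_filter, mem_univ, true_and, and_iff_right_iff_imp]
    intro h
    exact ((sig_eq_iff.1 h) S hS).2 hu
  have hev : ∀ᶠ ε in 𝓝 (0 : ℝ), InP r (fun v => x v + ε * d v) := by
    refine Eventually.and ?_ (Eventually.and ?_ ?_)
    · rw [eventually_all]
      intro v
      rcases (hx.1 v).eq_or_lt with h | h
      · exact Eventually.of_forall fun ε => by simp [← h, hd0 v h.symm]
      · have hc : ContinuousAt (fun ε : ℝ => x v + ε * d v) 0 := by fun_prop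
        have := hc.eventually (lt_mem_nhds (a := 0) (by simpa using h))
        exact this.mono fun ε hε => le_of_lt hε
    · rw [eventually_all]
      intro S
      rcases (hx.2.1 S).eq_or_lt with h | h
      · refine Eventually.of_forall fun ε => ?_
        rw [sum_add_distrib, ← mul_sum, htight S h, h]
        simp
      · have hc : ContinuousAt (fun ε : ℝ => ∑ v ∈ S, (x v + ε * d v)) 0 := by fun_prop
        have := hc.eventually (gt_mem_nhds (a := (r S : ℝ)) (by simpa using h))
        exact this.mono fun ε hε => le_of_lt hε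
    · refine Eventually.of_forall fun ε => ?_
      rw [sum_add_distrib, ← mul_sum, htight univ hx.2.2, hx.2.2]
      simp
  obtain ⟨δ, hδ, hball⟩ := Metric.eventually_nhds_iff.1 hev
  refine ⟨δ / 2, by linarith, hball ?_, hball ?_⟩
  · rw [Real.dist_eq, sub_zero, abs_of_pos (by linarith)]; linarith
  · rw [Real.dist_eq, sub_zero, abs_neg, abs_of_pos (by linarith)]; linarith

end Pool.Agent.P.MP_1639c2_lc
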